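import Pool.Agent.Y274.P.Forms
import Pool.Agent.Y4.P.Jobs

/-!
# Project P: job JForms
-/

namespace Pool.Agent.Y274.P

open Pool.Agent.Y4.P

theorem jforms : Pool.Agent.Y4.P.JForms := by
  intro X _ _ _ Γ _ R hfi ω hnd hωR hR1 hR2 hH hss s W hW hWW hall st hst hDu hDu' N hN hpair hdet
    m φ hφ
  exact forms_mem' hfi ω hnd hωR hR1 hR2 hH hss W hW hWW hall st hst hDu hDu' N hN hpair hdet φ hφ

end Pool.Agent.Y274.P
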