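import Mathlib
import Pool.Agent.Y90.E2

/-!
# Invariant forms on a semisimple representation, with arbitrary products of determinants
-/

set_option linter.unusedSectionVars false

namespace Pool.Agent.Y274.P

open Module Pool.Agent.H204R3.SP Pool.Agent.H204R3.GP Pool.Agent.W522.U Pool.Agent.Y90

noncomputable section

/-- The system of all forms. -/
theorem clo_top {K : Type*} [Field K] {X : Type*} [AddCommGroup X] [Module K X] :
    Clo (K := K) (X := X) (fun (κ : Type) [Finite κ] =>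
      (⊤ : Submodule K (MultilinearMap K (fun _ : κ => X) K))) where
  unit := fun _ _ _ _ => Submodule.mem_top
  mul := fun _ _ _ _ _ _ _ _ _ _ _ _ _ => Submodule.mem_top

section pi

variable {K : Type*} [Field K] [CharZero K]
  {I : Type} [Fintype I] [DecidableEq I] {E : I → Type*} [∀ i, AddCommGroup (E i)]
  [∀ i, Module K (E i)] [∀ i, FiniteDimensional K (E i)] {G : Type*} [Group G]
  {r : ∀ i, Representation K G (E i)} {χ : G →* K}
  (ω : (∀ i, E i) →ₗ[K] (∀ i, E i) →ₗ[K] K) (halt : ∀ u, ω u u = 0)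
  (hnd : ∀ u, (∀ w, ω u w = 0) → u = 0)
  (hωρ : ∀ g u v, ω (piRep r g u) (piRep r g v) = χ g * ω u v)
  (st : I → I) (hst : ∀ i, st (st i) = i)
  (hor : ∀ i j, j ≠ st i → ∀ (u : E i) (v : E j), ω (Pi.single i u) (Pi.single j v) = 0)
  (htw : ∀ i j, i ≠ j → 2 ≤ finrank K (E i) → 2 ≤ finrank K (E j) →
    ∀ (T : E i →ₗ[K] E j) (ψ : G → K), (∀ g u, T (r i g u) = ψ g • r j g (T u)) → T = 0)
  (hirr : ∀ i, 2 ≤ finrank K (E i) → Irr (r i))
  (hnil : ∀ i, 2 ≤ finrank K (E i) → ∃ N ∈ lieT (piRep r) χ, N * N = 0 ∧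
    ∃ (u : E i) (φ : Dual K (E i)), u ≠ 0 ∧ φ ≠ 0 ∧ ∀ x, N (Pi.single i x) i = φ x • u)
  {n : ℕ} (e : Basis (Fin n ⊕ Fin n) K (∀ i, E i)) (lab : Fin n ⊕ Fin n → I)
  (hlab : ∀ x, e x = Pi.single (lab x) (e x (lab x)))
  (hlab' : ∀ x, lab x.swap = st (lab x))
  (he0 : ∀ x y, y ≠ x.swap → ω (e x) (e y) = 0) (he1 : ∀ x, ω (e x) (e x.swap) ≠ 0)
  (N : ∀ (κ : Type) [Finite κ], Submodule K (MultilinearMap K (fun _ : κ => ∀ i, E i) K))
  (hN : Clo N)
  (hpair : ∀ b : (∀ i, E i) →ₗ[K] (∀ i, E i) →ₗ[K] K,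
    (∀ g u v, b (piRep r g u) (piRep r g v) = χ g * b u v) → bil2 b ∈ N (Fin 2))

include hN hpair hlab he0 hωρ in
/-- The products of pairings and determinants belong to the system. -/
theorem PD_mem' {κ : Type} [Fintype κ] [DecidableEq κ] {S : Type} [Fintype S] (C : S → I)
    (hd : ∀ ψ : MultilinearMap K (fun _ : (Σ q, Mem lab (C q)) => ∀ i, E i) K,
      (∀ v, ψ v = ∏ q, dF e lab (C q) (fun y => v ⟨q, y⟩)) → ψ ∈ N (Σ q, Mem lab (C q))) :
    PD κ lab Sum.swap (fun x => ω (e x) (e x.swap)) C ⊆ (N κ).map (evB e) := by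
  classical
  rintro _ ⟨m, S0, e2, c, rfl⟩
  -- the product of the determinants
  obtain ⟨D, -, hD⟩ := (clo_top (K := K) (X := ∀ i, E i)).exists_fam (fun q => Mem lab (C q))
    (fun q => dF e lab (C q)) (fun _ => Submodule.mem_top) (Equiv.refl (Σ q, Mem lab (C q)))
  let B : (S0 ⊕ Unit) → Type := Sum.elim (fun _ => Fin 2) (fun _ => Σ q, Mem lab (C q))
  have hBf : ∀ a, Finite (B a) := by
    rintro (s | x)
    · exact inferInstanceAs (Finite (Fin 2))
    · exact inferInstanceAs (Finite (Σ q, Mem lab (C q)))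
  let ψ : ∀ a, MultilinearMap K (fun _ : B a => ∀ i, E i) K := fun a =>
    match a with
    | Sum.inl s => bil2 (ω.comp (pc (c s)))
    | Sum.inr _ => D
  have hψ : ∀ a, ψ a ∈ N (B a) := by
    rintro (s | x)
    · refine hpair _ fun g u v => ?_
      change ω (Pi.single (c s) (r (c s) g (u (c s)))) (piRep r g v) =
        χ g * ω (Pi.single (c s) (u (c s))) v
      rw [← piRep_single, hωρ]
    · exact hd D hD
  let eB : (Σ a, B a) ≃ κ :=
    (Equiv.sumSigmaDistrib B).trans ((Equiv.sumCongr (Equiv.sigmaEquivProd S0 (Fin 2))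
      (Equiv.uniqueSigma (fun _ : Unit => Σ q, Mem lab (C q)))).trans e2)
  obtain ⟨Ψ, hΨ, hΨ'⟩ := hN.exists_fam B ψ hψ eB
  refine ⟨Ψ, hΨ, ?_⟩
  funext J
  change Ψ (fun k => e (J k)) = _
  rw [hΨ', Fintype.prod_sum_type]
  congr 1
  · refine Finset.prod_congr rfl fun s _ => ?_
    change ω (pc (c s) (e (J (e2 (Sum.inl (s, 0)))))) (e (J (e2 (Sum.inl (s, 1))))) = _
    rw [pc_e e lab hlab]
    split_ifs with h
    · exact (JJ_eq ω e he0 _ _).symm
    · rw [map_zero, LinearMap.zero_apply]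
  · rw [Fintype.prod_unique]
    change D (fun z => e (J (e2 (Sum.inr z)))) = _
    rw [hD]
    refine Finset.prod_congr rfl fun q _ => ?_
    change dF e lab (C q) (fun y => e (J (e2 (Sum.inr ⟨q, y⟩)))) = _
    rw [dF_basis]

variable (hdet : ∀ a : I → ℤ, (∀ i, a (st i) = -a i) →
  (∀ g : G, ∃ M : ℕ, M ≠ 0 ∧ (∏ i, LinearMap.det (r i g) ^ a i) ^ M = 1) →
  ∀ ψ : MultilinearMap K
    (fun _ : (Σ q : (Σ i, Fin (a i).toNat), Mem lab q.1) => ∀ i, E i) K,
    (∀ v, ψ v = ∏ q : (Σ i, Fin (a i).toNat), dF e lab q.1 (fun y => v ⟨q, y⟩)) →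
      ψ ∈ N (Σ q : (Σ i, Fin (a i).toNat), Mem lab q.1))

include halt hnd hωρ hst hor htw hirr hnil hlab hlab' he0 he1 hN hpair hdet in
/-- The components of a Tate form belong to the system. -/
theorem comp_mem' [IsAlgClosed K] {m : ℕ}
    (φ : MultilinearMap K (fun _ : Fin m × Fin 2 => ∀ i, E i) K)
    (hφ : IsTate (piRep r) χ m φ) (t : Fin m × Fin 2 → I) :
    φ.compLinearMap (fun k => pc (t k)) ∈ N (Fin m × Fin 2) := by
  classical
  have hskew := om_skew ω halt
  have hev : evB e (φ.compLinearMap (fun k => pc (t k))) = Fc e lab φ t := by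
    funext J
    change φ (fun k => pc (t k) (e (J k))) = _
    unfold Fc
    split_ifs with h
    · congr 1
      funext k
      rw [pc_e e lab hlab, if_pos (h k)]
    · push Not at h
      obtain ⟨k, hk⟩ := h
      refine φ.map_coord_zero k ?_
      rw [pc_e e lab hlab, if_neg hk]
  by_cases h0 : φ.compLinearMap (fun k => pc (t k)) = 0
  · rw [h0]
    exact Submodule.zero_mem _
  obtain ⟨J, hJt, hJ⟩ : ∃ J : Fin m × Fin 2 → Fin n ⊕ Fin n, (∀ k, lab (J k) = t k) ∧
      φ (fun k => e (J k)) ≠ 0 := by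
    by_contra hcon
    push Not at hcon
    apply h0
    apply evB_inj e
    rw [hev, map_zero]
    funext J
    unfold Fc
    split_ifs with h
    · exact hcon J h
    · rfl
  have htJ : (fun k => lab (J k)) = t := funext hJt
  -- the integers
  have hz : ∀ i, ∃ z : ℤ, (finrank K (E i) : ℤ) * z = (cnt t i : ℤ) - cnt t (st i) ∧
      (finrank K (E i) = 0 → z = 0) := by
    intro i
    by_cases h : ∃ y, lab y = i
    · obtain ⟨y, rfl⟩ := h
      refine ⟨(cnt J y : ℤ) - cnt J y.swap, ?_, fun h1 => absurd h1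
        (finrank_pos_lab e lab hlab y).ne'⟩
      rw [weight_one ω halt hnd hωρ st hst hor htw hirr hnil e lab hlab hlab' he0 he1 φ hφ J hJ y,
        htJ]
    · push Not at h
      have h1 : ∀ j, (∀ y, lab y ≠ j) → cnt t j = 0 := by
        intro j hj
        unfold cnt
        refine Finset.sum_eq_zero fun k _ => if_neg ?_
        rw [← hJt k]
        exact hj _
      refine ⟨0, ?_, fun _ => rfl⟩
      rw [h1 i h, h1 (st i) (fun y hy => h y.swap (by rw [hlab', hy, hst]))]
      simp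
  choose a ha ha0 using hz
  have ha' : ∀ i, a (st i) = -a i := by
    intro i
    have hfr := finrank_st ω hnd st hst hor i
    by_cases h : finrank K (E i) = 0
    · rw [ha0 i h, ha0 (st i) (by rw [hfr, h]), neg_zero]
    · have h1 := ha i
      have h2 := ha (st i)
      rw [hfr, hst] at h2
      have h3 : (finrank K (E i) : ℤ) * a (st i) = (finrank K (E i) : ℤ) * (-a i) := by
        rw [h2, mul_neg, h1]
        ring
      exact mul_left_cancel₀ (by exact_mod_cast h) h3
  -- the balance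
  have hdd := hdet a ha' (fun g => by
    obtain ⟨Δ, hΔ, hφΔ⟩ := hφ
    obtain ⟨M, hM0, hM⟩ := exists_pow_mem Δ hΔ g
    refine ⟨M, hM0, det_rel ω halt hnd hωρ st hst hor htw hirr hnil g φ Δ hΔ hφΔ M hM t
      (fun k => e (J k) (t k)) ?_ a ha⟩
    have h1 : (fun k => (Pi.single (t k) (e (J k) (t k)) : ∀ i, E i)) = fun k => e (J k) := by
      funext k
      exact (e_single e lab hlab (hJt k)).symm
    rw [h1]
    exact hJ)
  have hF : Fc e lab φ t ∈ Submodule.span K (PD (Fin m × Fin 2) lab Sum.swap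
      (fun x => ω (e x) (e x.swap)) (fun q : (Σ i, Fin (a i).toNat) => q.1)) := by
    refine sl_fft (Cs := fun q => st q.1) (fun x => Sum.swap_swap x) (fun x => ?_) he1
      (fun x y h => ?_) (fun q : (Σ i, Fin (a i).toNat) => q.1) (fun q y => ?_)
      (fun q q' h => ?_) (t := t) (fun L hL k => ?_) (fun b c hbc L => ?_)
    · rw [Sum.swap_swap, hskew]
    · rw [hlab', hlab', h]
    · rw [hlab', y.2]
    · have h1 := q.2.2
      have h2 := q'.2.2
      have h3 := ha' q.1
      rw [h] at h3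
      omega
    · unfold Fc at hL
      by_contra hcon
      exact hL (if_neg fun h => hcon (h k))
    · exact elemX_F ω halt hnd hωρ st hst hor htw hirr hnil e lab hlab hlab' he0 he1 φ hφ t a ha
        ha' b c hbc L
  have h2 := Submodule.span_le.2 (PD_mem' ω hωρ e lab hlab he0 N hN hpair
    (κ := Fin m × Fin 2) (fun q : (Σ i, Fin (a i).toNat) => q.1) hdd) hF
  obtain ⟨ψ, hψ, hψF⟩ := h2
  rw [← hev] at hψF
  rw [← evB_inj e hψF]
  exact hψ

include halt hnd hωρ hst hor htw hirr hnil hlab hlab' he0 he1 hN hpair hdet in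
/-- Tate forms belong to the system. -/
theorem tate_mem' [IsAlgClosed K] {m : ℕ}
    (φ : MultilinearMap K (fun _ : Fin m × Fin 2 => ∀ i, E i) K)
    (hφ : IsTate (piRep r) χ m φ) : φ ∈ N (Fin m × Fin 2) := by
  classical
  have h1 : φ = ∑ t : Fin m × Fin 2 → I, φ.compLinearMap (fun k => pc (t k)) := by
    refine MultilinearMap.ext fun v => ?_
    rw [_root_.sum_apply]
    have h2 : v = fun k => ∑ i, pc (K := K) i (v k) := by
      funext k
      exact (Finset.univ_sum_single (v k)).symm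
    conv_lhs => rw [h2]
    rw [MultilinearMap.map_sum]
    rfl
  rw [h1]
  exact Submodule.sum_mem _ fun t _ => comp_mem' ω halt hnd hωρ st hst hor htw hirr hnil e lab
    hlab hlab' he0 he1 N hN hpair hdet φ hφ t

end pi

variable {K : Type*} [Field K] [CharZero K] {X : Type*} [AddCommGroup X] [Module K X]
  [FiniteDimensional K X]
  {Γ : Type*} [Group Γ]

variable {R : Representation K Γ X} {χ : Γ →* K}
  (hfi : ∀ Δ : Subgroup Γ, Δ.FiniteIndex → Δ = ⊤)
  (ω : X →ₗ[K] X →ₗ[K] K) (hnd : ∀ u, (∀ v, ω u v = 0) → u = 0)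
  (hωR : ∀ g u v, ω (R g u) (R g v) = χ g * ω u v)
  (hR1 : ∀ U, SI R U → 2 ≤ finrank K U → ∃ γ : Γ, (R γ - 1) * (R γ - 1) = 0 ∧
    finrank K (U.map (R γ - 1)) = 1)
  (hR2 : ∀ U, SI R U → finrank K U = 1 → ¬Du R χ U U)
  (hH : ∀ U U', SI R U → SI R U' → 2 ≤ finrank K U → ¬Du R χ U U → ∀ ψ : Γ → K, Tw R ψ U U' →
    Tw R (fun _ => 1) U U')
  (hss : HasProj R)

include hfi hnd hωR hR1 hR2 hH hss in
/-- The invariant forms belong to each system of forms which contains the invariant bilinear forms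
and the balanced products of determinants. -/
theorem forms_mem' [IsAlgClosed K] {s : ℕ} (W : Fin s → Submodule K X) (hW : ∀ i, SI R (W i))
    (hWW : ∀ i j, Tw R (fun _ => 1) (W i) (W j) → i = j)
    (hall : ∀ U, SI R U → ∃ i, Tw R (fun _ => 1) U (W i))
    (st : Fin s → Fin s) (hst : ∀ i, st (st i) = i) (hDu : ∀ i, Du R χ (W i) (W (st i)))
    (hDu' : ∀ i j, Du R χ (W i) (W j) → j = st i)
    (N : ∀ (κ : Type) [Finite κ], Submodule K (MultilinearMap K (fun _ : κ => X) K))
    (hN : Clo N)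
    (hpair : ∀ b : X →ₗ[K] X →ₗ[K] K, (∀ g u v, b (R g u) (R g v) = χ g * b u v) →
      bil2 b ∈ N (Fin 2))
    (hdet : ∀ a : Fin s → ℤ, (∀ i, a (st i) = -a i) →
      (∀ (g : Γ) (h : ∀ i, ∀ u ∈ W i, R g u ∈ W i), ∃ M : ℕ, M ≠ 0 ∧
        (∏ i, LinearMap.det ((R g).restrict (h i)) ^ a i) ^ M = 1) →
      ∀ (ι : Fin s → Type) [∀ i, Fintype (ι i)] [∀ i, DecidableEq (ι i)]
        (f : ∀ i, Basis (ι i) K (W i))
        (q : ∀ x : (Σ i, Fin (a i).toNat), ι x.1 → X →ₗ[K] W x.1),
        (∀ x y g v, (q x y (R g v) : X) = R g (q x y v)) →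
        ∀ ψ : MultilinearMap K (fun _ : (Σ x : (Σ i, Fin (a i).toNat), ι x.1) => X) K,
          (∀ v, ψ v = ∏ x : (Σ i, Fin (a i).toNat), (f x.1).det (fun y => q x y (v ⟨x, y⟩))) →
            ψ ∈ N (Σ x : (Σ i, Fin (a i).toNat), ι x.1))
    {m : ℕ} (φ : MultilinearMap K (fun _ : Fin m × Fin 2 => X) K) (hφ : IsTate R χ m φ) :
    φ ∈ N (Fin m × Fin 2) := by
  classical
  obtain ⟨B, Δ, hΔ, hWΔ, halt, hnd', hsim, hor, htw, hirr, hnil⟩ :=
    main_data ω hnd hωR hR1 hR2 hH W hW hWW st hst hDu hDu'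
  obtain rfl := hfi Δ hΔ
  obtain ⟨n, e, lab, -, hlab, hlab', he0, he1, -, -⟩ :=
    exists_graded (pf W st B) halt hnd' hsim st hst hor 1
  let r := fun i => resR R ⊤ (W i) (hWΔ i)
  -- the system on the sum of the representatives
  let Eq : (X →ₗ[K] ∀ i, W i) → Prop := fun q =>
    ∀ (g : Γ) (x : X), q (R g x) = piRep r ⟨g, Subgroup.mem_top g⟩ (q x)
  let N' : ∀ (κ : Type) [Finite κ], Submodule K (MultilinearMap K (fun _ : κ => ∀ i, W i) K) :=
    fun κ _ =>
      { carrier := {F | ∀ q : κ → (X →ₗ[K] ∀ i, W i), (∀ k, Eq (q k)) → F.compLinearMap q ∈ N κ}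
        add_mem' := fun {F F'} hF hF' q hq => by
          have h1 := Submodule.add_mem _ (hF q hq) (hF' q hq)
          exact h1
        zero_mem' := fun q hq => by
          have h1 : (0 : MultilinearMap K (fun _ : κ => ∀ i, W i) K).compLinearMap q = 0 := rfl
          rw [h1]
          exact Submodule.zero_mem _
        smul_mem' := fun c F hF q hq => by
          have h1 := Submodule.smul_mem _ c (hF q hq)
          exact h1 }
  have hN' : Clo N' := by
    constructor
    · intro κ _ _ F q _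
      exact hN.unit κ _
    · intro κ κ' κ'' _ _ _ e F F' ψ hF hF' hψ q hq
      refine hN.mul κ κ' κ'' e _ _ _ (hF (fun k => q (e (Sum.inl k))) (fun k => hq _))
        (hF' (fun k => q (e (Sum.inr k))) (fun k => hq _)) fun v => ?_
      rw [MultilinearMap.compLinearMap_apply, hψ]
      rfl
  choose f hf using exists_fb e lab hlab
  have hmain : ∀ F : MultilinearMap K (fun _ : Fin m × Fin 2 => ∀ i, W i) K,
      IsTate (piRep r) (χ.comp (⊤ : Subgroup Γ).subtype) m F → F ∈ N' (Fin m × Fin 2) := by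
    intro F hF
    refine tate_mem' (pf W st B) halt hnd' hsim st hst hor htw (fun i _ => hirr i) hnil e lab hlab
      hlab' he0 he1 N' hN' ?_ ?_ F hF
    · intro b hb q hq
      have h1 := hpair (b.compl₁₂ (q 0) (q 1)) (fun g u v => by
        rw [LinearMap.compl₁₂_apply, LinearMap.compl₁₂_apply, hq, hq, hb]
        rfl)
      refine hN.reindex (Equiv.refl _) h1 _ fun v => rfl
    · intro a ha hag ψ hψ q hq
      refine hdet a ha (fun g h => hag ⟨g, Subgroup.mem_top g⟩) (fun i => Mem lab i) f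
        (fun x y => (LinearMap.proj x.1).comp (q ⟨x, y⟩)) (fun x y g v => ?_) _ fun v => ?_
      · rw [LinearMap.comp_apply, hq]
        rfl
      · rw [MultilinearMap.compLinearMap_apply, hψ]
        refine Finset.prod_congr rfl fun x _ => ?_
        rw [dF_eq e lab x.1 (f x.1) (hf x.1) hlab]
        rfl
  -- expansion
  obtain ⟨n', f', T, hfT⟩ := Submodule.mem_span_set'.1 (decomp hss W hW hall)
  choose i p ι D hD hp hι hT using fun l => (T l).2
  have hDt : ∀ l, D l = ⊤ := fun l => hfi _ (hD l)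
  have hexp : φ = ∑ L : Fin m × Fin 2 → Fin n', (∏ k, f' (L k)) •
      φ.compLinearMap (fun k => (T (L k)).1) := by
    ext v
    rw [_root_.sum_apply]
    have h1 : v = fun k => ∑ l, f' l • (T l).1 (v k) := by
      funext k
      have h2 := congrArg (fun F : Module.End K X => F (v k)) hfT
      simp only [LinearMap.sum_apply, LinearMap.smul_apply, Module.End.one_apply] at h2
      exact h2.symm
    conv_lhs => rw [h1]
    rw [MultilinearMap.map_sum]
    refine Finset.sum_congr rfl fun L _ => ?_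
    rw [MultilinearMap.map_smul_univ]
    rfl
  obtain ⟨Δφ, hΔφ, hφ'⟩ := hφ
  obtain rfl := hfi Δφ hΔφ
  rw [hexp]
  refine Submodule.sum_mem _ fun L _ => Submodule.smul_mem _ _ ?_
  let φL : MultilinearMap K (fun _ : Fin m × Fin 2 => ∀ i, W i) K :=
    φ.compLinearMap (fun k => (ι (L k)).comp (LinearMap.proj (i (L k))))
  have hφL : IsTate (piRep r) (χ.comp (⊤ : Subgroup Γ).subtype) m φL := by
    refine ⟨⊤, inferInstance, fun g _ w => ?_⟩
    change φ (fun k => ι (L k) (piRep r g (w k) (i (L k)))) = χ g.1 ^ m * φ (fun k => _)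
    rw [← hφ' g.1 (Subgroup.mem_top _)]
    congr 1
    funext k
    exact hι (L k) g.1 (by rw [hDt]; exact Subgroup.mem_top _) _ _ rfl
  let q : Fin m × Fin 2 → (X →ₗ[K] ∀ i, W i) := fun k =>
    (LinearMap.single K (fun i => W i) (i (L k))).comp (p (L k))
  have hq : ∀ k, Eq (q k) := by
    intro k g x
    change (Pi.single (i (L k)) (p (L k) (R g x)) : ∀ i, W i) =
      piRep r ⟨g, _⟩ (Pi.single (i (L k)) (p (L k) x))
    rw [piRep_single]
    congr 1
    exact Subtype.ext (hp (L k) g (by rw [hDt]; exact Subgroup.mem_top _) x)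
  have h1 : φ.compLinearMap (fun k => (T (L k)).1) = φL.compLinearMap q := by
    ext v
    change φ (fun k => (T (L k)).1 (v k)) = φ (fun k => ι (L k)
      ((Pi.single (i (L k)) (p (L k) (v k)) : ∀ i, W i) (i (L k))))
    congr 1
    funext k
    rw [hT, Pi.single_eq_same]
    rfl
  rw [h1]
  exact hmain φL hφL q hq

end

end Pool.Agent.Y274.P
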